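import Pool.Agent.H21.STE.INC
import Pool.Agent.H90.STE.Stmts

set_option autoImplicit false

open Finset BigOperators

namespace Pool.STE

/-- IN: inclusion matrices. -/
theorem in_ : INStmt := by
  classical
  intro n j _
  obtain ⟨Φ, h1, h2, c, c', h3⟩ := Pool.Agent.H21.STE.inc n j
  refine ⟨Φ, ?_, h2, c, c', ?_⟩
  · intro S hS
    exact Finset.mem_powersetCard.mpr ⟨Finset.subset_univ _, h1 S hS⟩
  · intro Y φ hφ
    have e1 : Finset.powersetCard (j + 1) (Finset.univ : Finset (Fin n)) \ Φ
        = (univ.powersetCard (j + 1)).filter (fun S' => S' ∉ Φ) := by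
      ext T; simp
    have e2 : ∀ S : Finset (Fin n), Sᶜ = univ.filter (fun i => i ∉ S) := by
      intro S; ext i; simp
    have h := h3 ℝ Y φ hφ
    rw [e1]
    simp only [e2]
    simpa only [smul_eq_mul] using h

end Pool.STE
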