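import Pool.Agent.H90.STE.Stmts

/-!
# Small doubling at the vertices of a cube of times, integer form
-/

set_option autoImplicit false

namespace Pool.STE

open Finset Real MeasureTheory
open Pool.Agent.H49.Ent Pool.Agent.H32.Dense Pool.STK

/-- **SI**. -/
theorem si (hIR : IRStmt) (hDIL : DILStmt) : SIStmt := by
  intro m n S hn hS
  obtain ⟨C, hC0, hC⟩ := hIR m n hn
  have hLS : 0 ≤ Real.log ((2 ^ n : ℝ) ^ S * 1) := by
    refine Real.log_nonneg ?_
    rw [mul_one]
    exact one_le_pow₀ (one_le_pow₀ (by norm_num))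
  refine ⟨C * (1 + Real.log ((2 ^ n : ℝ) ^ S * 1)), by positivity, ?_⟩
  intro h i₀ hh Ω _ p l y M hp hM hB hl
  have hpp : ∀ w : Ω × Ω, 0 ≤ pr2 p p w := fun w => mul_nonneg (hp.nonneg _) (hp.nonneg _)
  have hctl : ∀ w : Finset (Fin n), Ctl p (fun ω => evq w (l ω)) p (fun ω => evq w (l ω))
      (2 * (H (pr2 p p) (fun v => evq w (l v.2) - evq w (l v.1)) -
        H p (fun ω => evq w (l ω)))) :=
    fun w => hDIL Ω (Fin m → ℤ) p hp (fun ω => evq w (l ω))
  have hD : ∀ w : Finset (Fin n), 0 ≤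
      2 * (H (pr2 p p) (fun v => evq w (l v.2) - evq w (l v.1)) -
        H p (fun ω => evq w (l ω))) := by
    intro j
    have h1 := hctl j (-1)
    have h2 : H (pr2 p p) (fun w => -(evq j (l w.2) - evq j (l w.1))) =
        H (pr2 p p) (fun w => evq j (l w.2) - evq j (l w.1)) :=
      H_comp_injective hpp (fun w => evq j (l w.2) - evq j (l w.1)) neg_injective
    have h3 : (fun w : Ω × Ω => -(evq j (l w.2) - evq j (l w.1))) =
        fun w => evq j (l w.1) + (-1 : ℤ) • evq j (l w.2) := by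
      funext w
      rw [neg_one_zsmul]
      abel
    rw [h3] at h2
    simp only [Int.cast_neg, Int.cast_one, abs_neg, abs_one, one_mul] at h1
    linarith
  have hSpos : (0 : ℝ) < S := by exact_mod_cast hS
  have hlog : 0 ≤ Real.log (2 * ((2 ^ n : ℝ) ^ S * M) + 1) := by
    refine Real.log_nonneg ?_
    have : 0 ≤ (2 ^ n : ℝ) ^ S * M := by positivity
    linarith
  have hnum : 0 ≤ m * (n + 1) * Real.log (2 * ((2 ^ n : ℝ) ^ S * M) + 1) + 1 := by positivity
  have hHA := H_nonneg hp.nonneg hp.sum_one l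
  have hmain := hC h i₀ hh Ω p (fun w ω => evq w (l ω)) (H p (fun ω => (l ω).2 i₀))
    ((m * (n + 1) * Real.log (2 * ((2 ^ n : ℝ) ^ S * M) + 1) + 1) / S) hp (by positivity) S Ω p l y
    M 1 (fun w => 2 * (H (pr2 p p) (fun v => evq w (l v.2) - evq w (l v.1)) -
      H p (fun ω => evq w (l ω)))) hp hM le_rfl hB hl hD (fun w => hctl w) le_rfl (by
      rw [mul_div_cancel₀ _ hSpos.ne']
      linarith)
  refine hmain.trans ?_
  have hsum : 0 ≤ ∑ i, Real.log (1 / |h i|) := by
    refine Finset.sum_nonneg (fun i _ => Real.log_nonneg ?_)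
    rw [le_div_iff₀ (abs_pos.mpr (hh i).1), one_mul]
    exact (hh i).2
  have hfin : C * (1 + Real.log ((2 ^ n : ℝ) ^ S * 1) + ∑ i, Real.log (1 / |h i|)) ≤
      C * (1 + Real.log ((2 ^ n : ℝ) ^ S * 1)) * (1 + ∑ i, Real.log (1 / |h i|)) := by
    have : 0 ≤ C * Real.log ((2 ^ n : ℝ) ^ S * 1) * ∑ i, Real.log (1 / |h i|) := by positivity
    nlinarith
  linarith

end Pool.STE
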