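import Pool.Agent.H90.STK.All0
import Pool.Agent.H12.STE.ST
import Pool.Agent.H14.STE.PG
import Pool.Agent.H2.STE.CT
import Pool.Agent.H2.STE.TP
import Pool.Agent.H21.STE.IN
import Pool.Agent.H21.STE.SI
import Pool.Agent.H22.STE.CM
import Pool.Agent.H27.STE.SX
import Pool.Agent.H28.STE.CU
import Pool.Agent.H31.STE.KQ
import Pool.Agent.H34.STE.WF
import Pool.Agent.H36.STE.TS
import Pool.Agent.H40.STE.TV
import Pool.Agent.H42.STE.CD
import Pool.Agent.H49.STE.SD
import Pool.Agent.H50.STE.ET
import Pool.Agent.H50.STE.SQ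
import Pool.Agent.H51.STE.CB
import Pool.Agent.H52.STE.SPB
import Pool.Agent.H54.STE.SPC
import Pool.Agent.H59.STE.CC
import Pool.Agent.H59.STE.QT
import Pool.Agent.H62.STE.CA
import Pool.Agent.H63.STE.DT
import Pool.Agent.H73.STE.TN
import Pool.Agent.H78.STE.CO
import Pool.Agent.H78.STE.HT
import Pool.Agent.H78.STE.IR
import Pool.Agent.H79.STE.RD
import Pool.Agent.H82.STE.VB
import Pool.Agent.H88.STE.ZF
import Pool.Agent.H99.STE.BN
import Pool.Agent.H99.STE.CR

/-!
# Assembly of the sticky theorem with times dependent on the line (board ste)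
-/

set_option autoImplicit false

namespace Pool.STE

open Pool.STK

theorem stk_prd : PRDStmt := prd_thm
theorem stk_pr2 : PR2Stmt := pr2_thm
theorem stk_kv : KVStmt := kv_thm
theorem stk_dil : DILStmt := dil_thm stk_kv tri_thm stk_pr2
theorem stk_cts : CTSStmt := cts_thm stk_kv stk_pr2 stk_prd
theorem stk_cth : CTHStmt := cth_thm stk_pr2
theorem stk_sum : SUMStmt := sum_thm stk_prd prm_thm
theorem stk_mul : MULStmt := mul_thm
theorem stk_mui : MUIStmt := mui_thm stk_mul
theorem stk_spa : SPAStmt := spa_thm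
theorem stk_rfn : RFNStmt := rfn_thm
theorem stk_cds : CDSStmt := cds_thm

theorem all_spb : SPBStmt := Pool.STE.spb
theorem all_spc : SPCStmt := Pool.STE.spc
theorem all_zf : ZFStmt := Pool.STE.zf
theorem all_vb : VBStmt := Pool.STE.vb all_zf
theorem all_cr : CRStmt := Pool.STE.cr all_vb all_spb all_spc stk_spa
theorem all_ca : CAStmt := Pool.STE.ca_thm
theorem all_cb : CBStmt := Pool.STE.cb
theorem all_cc : CCStmt := Pool.STE.cc_thm
theorem all_cd : CDStmt := Pool.STE.cd
theorem all_qt : QTStmt := Pool.STE.qt all_ca all_cb stk_mul stk_mui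
theorem all_st : STStmt := Pool.STE.st stk_mul
theorem all_dt : DTStmt := Pool.STE.dt all_ca all_cc all_cd
theorem all_ht : HTStmt := Pool.STE.ht
theorem all_ts : TSStmt := Pool.STE.ts all_st all_dt
theorem all_tn : TNStmt := Pool.STE.tn stk_mul stk_mui
theorem all_wf : WFStmt := Pool.STE.wf all_tn
theorem all_sd : SDStmt := Pool.STE.sd all_wf all_qt
theorem all_co : COStmt := Pool.STE.co all_vb all_cr all_sd all_ts all_spc all_ht
theorem all_cu : CUStmt := Pool.STE.cu
theorem all_in : INStmt := Pool.STE.in_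
theorem all_bn : BNStmt := Pool.STE.bn
theorem all_kq : KQStmt := Pool.STE.kq all_in all_bn
theorem all_tp : TPStmt := Pool.STE.tp stk_prd stk_cts stk_sum
theorem all_ir : IRStmt := Pool.STE.ir all_kq all_tp stk_cth
theorem all_si : SIStmt := Pool.STE.si all_ir stk_dil
theorem all_cm : CMStmt := Pool.STE.cm
theorem all_sq : SQStmt := Pool.STE.sq all_si all_cm
theorem all_sx : SXStmt := Pool.STE.sx_thm all_sq
theorem all_pg : PGStmt := Pool.STE.pg
theorem all_rd : RDStmt := Pool.STE.rd
theorem all_tv : TVStmt := Pool.STE.tv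
theorem all_ct : CTStmt := Pool.STE.ct all_co all_cu all_pg all_sx
theorem all_et : ETStmt := Pool.STE.et all_ct all_bn all_rd all_tv

/-- **The sticky theorem for lines with random times, every dimension.** -/
theorem kst (m : ℕ) : KST m := all_et m

end Pool.STE
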