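import Mathlib

/-!
# Rank of the inclusion matrices of the Boolean lattice
-/

set_option autoImplicit false

open Finset BigOperators

namespace Pool.Agent.H21.STE

variable {n : ℕ}

/-- up operator -/
def up (f : Finset (Fin n) → ℝ) (T : Finset (Fin n)) : ℝ := ∑ i ∈ T, f (T.erase i)

/-- down operator -/
def dn (f : Finset (Fin n) → ℝ) (T : Finset (Fin n)) : ℝ :=
  ∑ i ∈ univ.filter (fun i => i ∉ T), f (insert i T)

theorem dn_up (f : Finset (Fin n) → ℝ) (T : Finset (Fin n)) :
    dn (up f) T = up (dn f) T + ((n : ℝ) - 2 * T.card) * f T := by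
  have h1 : dn (up f) T = ∑ i ∈ univ.filter (fun i => i ∉ T),
      (f T + ∑ k ∈ T, f ((insert i T).erase k)) := by
    unfold dn up
    refine Finset.sum_congr rfl (fun i hi => ?_)
    have hi' : i ∉ T := (mem_filter.mp hi).2
    rw [Finset.sum_insert hi', Finset.erase_insert hi']
  have h2 : up (dn f) T = ∑ k ∈ T, (f T + ∑ i ∈ univ.filter (fun i => i ∉ T),
      f ((insert i T).erase k)) := by
    unfold dn up
    refine Finset.sum_congr rfl (fun k hk => ?_)
    have h3 : (univ.filter (fun i => i ∉ T.erase k) : Finset (Fin n))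
        = insert k (univ.filter (fun i => i ∉ T)) := by
      ext i
      simp only [mem_filter, mem_univ, true_and, mem_erase, mem_insert]
      constructor
      · intro h
        by_cases hik : i = k
        · exact Or.inl hik
        · exact Or.inr (fun hiT => h ⟨hik, hiT⟩)
      · rintro (h | h)
        · rintro ⟨h1, _⟩; exact h1 h
        · rintro ⟨_, h1⟩; exact h h1
    have hkn : k ∉ (univ.filter (fun i => i ∉ T) : Finset (Fin n)) := by
      simp [hk]
    show ∑ i ∈ univ.filter (fun i => i ∉ T.erase k), f (insert i (T.erase k)) = _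
    rw [h3, Finset.sum_insert hkn, Finset.insert_erase hk]
    congr 1
    refine Finset.sum_congr rfl (fun i hi => ?_)
    have hi' : i ∉ T := (mem_filter.mp hi).2
    have hik : k ≠ i := by
      rintro rfl; exact hi' hk
    rw [Finset.erase_insert_of_ne hik.symm]
  have hc : (univ.filter (fun i => i ∉ T) : Finset (Fin n)).card = n - T.card := by
    have : (univ.filter (fun i => i ∉ T) : Finset (Fin n)) = univ \ T := by
      ext i; simp
    rw [this, Finset.card_univ_sdiff, Fintype.card_fin]
  have hle : T.card ≤ n := by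
    simpa using Finset.card_le_univ T
  rw [h1, h2, Finset.sum_add_distrib, Finset.sum_add_distrib, Finset.sum_const, Finset.sum_const,
    hc, nsmul_eq_mul, nsmul_eq_mul, Nat.cast_sub hle, Finset.sum_comm]
  ring

theorem adj (f g : Finset (Fin n) → ℝ) (j : ℕ) :
    ∑ T ∈ univ.powersetCard (j + 1), up f T * g T = ∑ T ∈ univ.powersetCard j, f T * dn g T := by
  unfold up dn
  simp only [Finset.sum_mul, Finset.mul_sum]
  rw [Finset.sum_sigma', Finset.sum_sigma']
  refine Finset.sum_bij' (fun x _ => ⟨x.1.erase x.2, x.2⟩) (fun x _ => ⟨insert x.2 x.1, x.2⟩)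
    ?_ ?_ ?_ ?_ ?_
  · rintro ⟨T, i⟩ hx
    simp only [mem_sigma, mem_powersetCard, subset_univ, true_and, mem_filter, mem_univ] at hx ⊢
    refine ⟨?_, Finset.notMem_erase _ _⟩
    rw [Finset.card_erase_of_mem hx.2, hx.1]
    rfl
  · rintro ⟨T, i⟩ hx
    simp only [mem_sigma, mem_powersetCard, subset_univ, true_and, mem_filter, mem_univ] at hx ⊢
    refine ⟨?_, Finset.mem_insert_self _ _⟩
    rw [Finset.card_insert_of_notMem hx.2, hx.1]
  · rintro ⟨T, i⟩ hx
    simp only [mem_sigma] at hx
    simp [Finset.insert_erase hx.2]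
  · rintro ⟨T, i⟩ hx
    simp only [mem_sigma, mem_filter, mem_univ, true_and] at hx
    simp [Finset.erase_insert hx.2]
  · rintro ⟨T, i⟩ hx
    simp only [mem_sigma] at hx
    simp [Finset.insert_erase hx.2]

/-- injectivity of the up operator below the middle -/
theorem up_inj (j : ℕ) (hj : 2 * j < n) (f : Finset (Fin n) → ℝ)
    (hf : ∀ T : Finset (Fin n), T.card = j + 1 → up f T = 0) :
    ∀ T : Finset (Fin n), T.card = j → f T = 0 := by
  have h1 : ∀ T : Finset (Fin n), T.card = j → dn (up f) T = 0 := by
    intro T hT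
    unfold dn
    refine Finset.sum_eq_zero (fun i hi => ?_)
    have hi' : i ∉ T := (mem_filter.mp hi).2
    exact hf _ (by rw [Finset.card_insert_of_notMem hi', hT])
  have h2 : ∑ T ∈ univ.powersetCard j, (up (dn f) T * f T
      + ((n : ℝ) - 2 * j) * (f T * f T)) = 0 := by
    refine Finset.sum_eq_zero (fun T hT => ?_)
    have hc : T.card = j := (mem_powersetCard.mp hT).2
    have h3 := dn_up f T
    rw [h1 T hc, hc] at h3
    linear_combination (-f T) * h3
  rw [Finset.sum_add_distrib, ← Finset.mul_sum] at h2
  have h4 : 0 ≤ ∑ T ∈ univ.powersetCard j, up (dn f) T * f T := by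
    rcases j with _ | j
    · refine Finset.sum_nonneg (fun T hT => ?_)
      have hc : T = ∅ := Finset.card_eq_zero.mp (mem_powersetCard.mp hT).2
      rw [hc]
      simp [up]
    · rw [adj (dn f) f j]
      exact Finset.sum_nonneg (fun T _ => mul_self_nonneg _)
  have h5 : 0 ≤ ∑ T ∈ (univ : Finset (Fin n)).powersetCard j, f T * f T :=
    Finset.sum_nonneg (fun T _ => mul_self_nonneg _)
  have h6 : (0 : ℝ) < (n : ℝ) - 2 * j := by
    have : ((2 * j : ℕ) : ℝ) < n := by exact_mod_cast hj
    push_cast at this
    linarith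
  have h7 : ∑ T ∈ (univ : Finset (Fin n)).powersetCard j, f T * f T = 0 := by
    by_contra hne
    have : 0 < ∑ T ∈ (univ : Finset (Fin n)).powersetCard j, f T * f T :=
      lt_of_le_of_ne h5 (Ne.symm hne)
    nlinarith [mul_pos h6 this]
  intro T hT
  have h8 := (Finset.sum_eq_zero_iff_of_nonneg (fun T _ => mul_self_nonneg (f T))).mp h7 T
    (mem_powersetCard.mpr ⟨subset_univ _, hT⟩)
  exact mul_self_eq_zero.mp h8

/-- injectivity of the down operator above the middle -/
theorem dn_inj (j : ℕ) (hj : n ≤ 2 * j) (f : Finset (Fin n) → ℝ)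
    (hf : ∀ T : Finset (Fin n), T.card = j → dn f T = 0) :
    ∀ T : Finset (Fin n), T.card = j + 1 → f T = 0 := by
  have h1 : ∀ T : Finset (Fin n), T.card = j + 1 → up (dn f) T = 0 := by
    intro T hT
    unfold up
    refine Finset.sum_eq_zero (fun i hi => ?_)
    exact hf _ (by rw [Finset.card_erase_of_mem hi, hT]; rfl)
  have h2 : ∑ T ∈ univ.powersetCard (j + 1), (f T * dn (up f) T
      - ((n : ℝ) - 2 * (j + 1)) * (f T * f T)) = 0 := by
    refine Finset.sum_eq_zero (fun T hT => ?_)
    have hc : T.card = j + 1 := (mem_powersetCard.mp hT).2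
    have h3 := dn_up f T
    rw [h1 T hc, hc] at h3
    push_cast at h3
    linear_combination (f T) * h3
  rw [Finset.sum_sub_distrib, ← Finset.mul_sum] at h2
  have h4 : 0 ≤ ∑ T ∈ univ.powersetCard (j + 1), f T * dn (up f) T := by
    rw [← adj f (up f) (j + 1)]
    exact Finset.sum_nonneg (fun T _ => mul_self_nonneg _)
  have h5 : 0 ≤ ∑ T ∈ (univ : Finset (Fin n)).powersetCard (j + 1), f T * f T :=
    Finset.sum_nonneg (fun T _ => mul_self_nonneg _)
  have h6 : (n : ℝ) - 2 * (j + 1) < 0 := by
    have : (n : ℝ) ≤ ((2 * j : ℕ) : ℝ) := by exact_mod_cast hj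
    push_cast at this
    linarith
  have h7 : ∑ T ∈ (univ : Finset (Fin n)).powersetCard (j + 1), f T * f T = 0 := by
    by_contra hne
    have : 0 < ∑ T ∈ (univ : Finset (Fin n)).powersetCard (j + 1), f T * f T :=
      lt_of_le_of_ne h5 (Ne.symm hne)
    nlinarith [mul_pos (neg_pos.mpr h6) this]
  intro T hT
  have h8 := (Finset.sum_eq_zero_iff_of_nonneg (fun T _ => mul_self_nonneg (f T))).mp h7 T
    (mem_powersetCard.mpr ⟨subset_univ _, hT⟩)
  exact mul_self_eq_zero.mp h8

/-- inclusion matrix between the levels `j` and `j + 1` -/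
def incM (n j : ℕ) : Matrix {S : Finset (Fin n) // S.card = j}
    {S : Finset (Fin n) // S.card = j + 1} ℝ := fun S T => if S.1 ⊆ T.1 then 1 else 0

theorem dnV {V : Type} [AddCommGroup V] [Module ℝ V] (Y : Finset (Fin n) → V) (j : ℕ)
    (S : Finset (Fin n)) (hS : S.card = j) :
    ∑ i ∈ univ.filter (fun i => i ∉ S), Y (insert i S)
      = ∑ T ∈ univ.powersetCard (j + 1), (if S ⊆ T then (1 : ℝ) else 0) • Y T := by
  simp only [ite_smul, one_smul, zero_smul]
  rw [← Finset.sum_filter]
  refine Finset.sum_bij (fun i _ => insert i S) ?_ ?_ ?_ ?_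
  · intro i hi
    have hi' : i ∉ S := (mem_filter.mp hi).2
    simp only [mem_filter, mem_powersetCard, subset_univ, true_and]
    exact ⟨by rw [Finset.card_insert_of_notMem hi', hS], Finset.subset_insert _ _⟩
  · intro i hi i' hi' h
    exact (Finset.insert_inj (mem_filter.mp hi).2).mp h
  · intro T hT
    simp only [mem_filter, mem_powersetCard, subset_univ, true_and] at hT
    obtain ⟨a, ha, haT⟩ := Finset.exists_eq_insert_iff.mpr ⟨hT.2, by rw [hS, hT.1]⟩
    exact ⟨a, by simp [ha], haT⟩
  · intro i _
    rfl

theorem upV (f : Finset (Fin n) → ℝ) (j : ℕ) (T : Finset (Fin n)) (hT : T.card = j + 1) :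
    up f T = ∑ S ∈ univ.powersetCard j, f S * (if S ⊆ T then (1 : ℝ) else 0) := by
  unfold up
  simp only [mul_ite, mul_one, mul_zero]
  rw [← Finset.sum_filter]
  refine Finset.sum_bij (fun i _ => T.erase i) ?_ ?_ ?_ ?_
  · intro i hi
    simp only [mem_filter, mem_powersetCard, subset_univ, true_and]
    exact ⟨by rw [Finset.card_erase_of_mem hi, hT]; rfl, Finset.erase_subset _ _⟩
  · intro i hi i' hi' h
    exact Finset.erase_injOn T hi hi' h
  · intro S hS
    simp only [mem_filter, mem_powersetCard, subset_univ, true_and] at hS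
    obtain ⟨a, ha, haT⟩ := Finset.exists_eq_insert_iff.mpr ⟨hS.2, by rw [hS.1, hT]⟩
    refine ⟨a, by rw [← haT]; exact Finset.mem_insert_self _ _, ?_⟩
    rw [← haT, Finset.erase_insert ha]
  · intro i _
    rfl

/-- independent columns -/
theorem incCols (n j : ℕ) : ∃ (κ : Type) (_ : Fintype κ) (a : κ → {T : Finset (Fin n) // T.card = j + 1}),
    Function.Injective a ∧ LinearIndependent ℝ (fun k => fun S => incM n j S (a k)) ∧
    Fintype.card κ = min (n.choose j) (n.choose (j + 1)) := by
  classical
  have cR : Fintype.card {S : Finset (Fin n) // S.card = j} = n.choose j := by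
    rw [Fintype.card_finset_len, Fintype.card_fin]
  have cC : Fintype.card {S : Finset (Fin n) // S.card = j + 1} = n.choose (j + 1) := by
    rw [Fintype.card_finset_len, Fintype.card_fin]
  rcases lt_or_ge (2 * j) n with hj | hj
  · -- rows independent
    have hspan : Submodule.span ℝ (Set.range (fun T : {T : Finset (Fin n) // T.card = j + 1} =>
        fun S => incM n j S T)) = ⊤ := by
      by_contra hne
      obtain ⟨f, hf0, hf⟩ := Submodule.exists_le_ker_of_lt_top _ (lt_top_iff_ne_top.mpr hne)
      have hfrep : ∀ v : {S : Finset (Fin n) // S.card = j} → ℝ,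
          f v = ∑ i, f (Pi.single i 1) * v i := by
        intro v
        conv_lhs => rw [← Finset.univ_sum_single v]
        rw [map_sum]
        refine Finset.sum_congr rfl (fun i _ => ?_)
        have : (Pi.single i (v i) : {S : Finset (Fin n) // S.card = j} → ℝ)
            = v i • (Pi.single i 1 : {S : Finset (Fin n) // S.card = j} → ℝ) := by
          rw [← Pi.single_smul, smul_eq_mul, mul_one]
        rw [this, map_smul, smul_eq_mul, mul_comm]
      apply hf0
      have hz := up_inj j hj (fun S => if h : S.card = j then f (Pi.single ⟨S, h⟩ 1) else 0) (by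
        intro T hT
        rw [upV _ j T hT, Finset.sum_subtype (p := fun S : Finset (Fin n) => S.card = j) _
          (fun S => by simp [mem_powersetCard])]
        have h1 : f (fun S => incM n j S ⟨T, hT⟩) = 0 :=
          hf (Submodule.subset_span ⟨⟨T, hT⟩, rfl⟩)
        rw [hfrep] at h1
        refine Eq.trans (Finset.sum_congr rfl (fun S _ => ?_)) h1
        rw [dif_pos S.2]
        rfl)
      refine LinearMap.ext (fun v => ?_)
      rw [hfrep, LinearMap.zero_apply]
      refine Finset.sum_eq_zero (fun S _ => ?_)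
      have := hz S.1 S.2
      rw [dif_pos S.2] at this
      rw [show f (Pi.single S 1) = 0 from this, zero_mul]
    obtain ⟨κ, a, ha, hsp, hli⟩ := exists_linearIndependent' ℝ
      (fun T : {T : Finset (Fin n) // T.card = j + 1} => fun S => incM n j S T)
    have hsp' : Submodule.span ℝ (Set.range ((fun T : {T : Finset (Fin n) // T.card = j + 1} =>
        fun S => incM n j S T) ∘ a)) = ⊤ := by rw [hsp, hspan]
    let bas : Module.Basis κ ℝ ({S : Finset (Fin n) // S.card = j} → ℝ) :=
      Module.Basis.mk hli hsp'.ge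
    have hfin : Fintype κ := FiniteDimensional.fintypeBasisIndex bas
    have hcard : Fintype.card κ = n.choose j := by
      rw [← Module.finrank_eq_card_basis bas, Module.finrank_fintype_fun_eq_card, cR]
    refine ⟨κ, hfin, a, ha, hli, ?_⟩
    rw [hcard]
    symm
    apply min_eq_left
    rw [← hcard, ← cC]
    exact Fintype.card_le_of_injective a ha
  · -- columns independent
    have hli : LinearIndependent ℝ (fun T : {T : Finset (Fin n) // T.card = j + 1} =>
        fun S => incM n j S T) := by
      rw [Fintype.linearIndependent_iff]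
      intro g hg
      have hz := dn_inj j hj (fun T => if h : T.card = j + 1 then g ⟨T, h⟩ else 0) (by
        intro S hS
        unfold dn
        refine (dnV (fun T => if h : T.card = j + 1 then g ⟨T, h⟩ else 0) j S hS).trans ?_
        rw [Finset.sum_subtype (p := fun S : Finset (Fin n) => S.card = j + 1) _
          (fun S => by simp [mem_powersetCard])]
        have h1 := congrFun hg ⟨S, hS⟩
        rw [Finset.sum_apply] at h1
        refine Eq.trans (Finset.sum_congr rfl (fun T _ => ?_)) h1
        rw [dif_pos T.2]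
        simp [incM])
      intro T
      have := hz T.1 T.2
      rw [dif_pos T.2] at this
      exact this
    refine ⟨{T : Finset (Fin n) // T.card = j + 1}, inferInstance, id, Function.injective_id, hli, ?_⟩
    rw [cC]
    symm
    apply min_eq_right
    have h1 := hli.fintype_card_le_finrank
    rw [Module.finrank_fintype_fun_eq_card, cR, cC] at h1
    exact h1

theorem inc (n j : ℕ) : ∃ Φ : Finset (Finset (Fin n)),
    (∀ S ∈ Φ, S.card = j + 1) ∧ Φ.card = min (n.choose j) (n.choose (j + 1)) ∧
    ∃ (c c' : Finset (Fin n) → Finset (Fin n) → ℝ),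
      ∀ (V : Type) [AddCommGroup V] [Module ℝ V] (Y : Finset (Fin n) → V), ∀ φ ∈ Φ,
        Y φ = ∑ S' ∈ (univ.powersetCard (j + 1)).filter (fun S' => S' ∉ Φ), c φ S' • Y S'
          + ∑ S ∈ univ.powersetCard j, c' φ S • ∑ i ∈ univ.filter (fun i => i ∉ S),
            Y (insert i S) := by
  classical
  obtain ⟨κ, hκ, a, ha, hli, hcard⟩ := incCols n j
  let Φ : Finset (Finset (Fin n)) := univ.image (fun k => (a k).1)
  have hinj : Function.Injective (fun k => (a k).1) := Subtype.val_injective.comp ha
  have key : ∀ φ ∈ Φ, ∃ c c' : Finset (Fin n) → ℝ,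
      ∀ (V : Type) [AddCommGroup V] [Module ℝ V] (Y : Finset (Fin n) → V),
        Y φ = ∑ S' ∈ (univ.powersetCard (j + 1)).filter (fun S' => S' ∉ Φ), c S' • Y S'
          + ∑ S ∈ univ.powersetCard j, c' S • ∑ i ∈ univ.filter (fun i => i ∉ S),
            Y (insert i S) := by
    intro φ hφ
    obtain ⟨k, -, hk⟩ := Finset.mem_image.mp hφ
    -- left inverse
    have hker : LinearMap.ker (Fintype.linearCombination ℝ
        (fun k => fun S => incM n j S (a k))) = ⊥ := by
      rw [LinearMap.ker_eq_bot']
      intro w hw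
      rw [Fintype.linearCombination_apply] at hw
      exact funext (fun i => Fintype.linearIndependent_iff.mp hli w hw i)
    obtain ⟨g, hg⟩ := LinearMap.exists_leftInverse_of_injective _ hker
    have hgk : ∀ k', g (fun S => incM n j S (a k')) = Pi.single k' 1 := by
      intro k'
      have h1 := congrArg (fun h => h (Pi.single k' 1)) hg
      simp only [LinearMap.comp_apply, LinearMap.id_apply] at h1
      rw [Fintype.linearCombination_apply_single, one_smul] at h1
      exact h1
    have hgrep : ∀ v : {S : Finset (Fin n) // S.card = j} → ℝ,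
        g v k = ∑ i, g (Pi.single i 1) k * v i := by
      intro v
      conv_lhs => rw [← Finset.univ_sum_single v]
      rw [map_sum, Finset.sum_apply]
      refine Finset.sum_congr rfl (fun i _ => ?_)
      have : (Pi.single i (v i) : {S : Finset (Fin n) // S.card = j} → ℝ)
          = v i • (Pi.single i 1 : {S : Finset (Fin n) // S.card = j} → ℝ) := by
        rw [← Pi.single_smul, smul_eq_mul, mul_one]
      rw [this, map_smul, Pi.smul_apply, smul_eq_mul, mul_comm]
    let c' : Finset (Fin n) → ℝ := fun S => if h : S.card = j then g (Pi.single ⟨S, h⟩ 1) k else 0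
    let m : Finset (Fin n) → ℝ := fun T => ∑ S ∈ univ.powersetCard j,
      c' S * (if S ⊆ T then (1 : ℝ) else 0)
    have hm : ∀ k', m (a k').1 = if k' = k then 1 else 0 := by
      intro k'
      have h1 := hgrep (fun S => incM n j S (a k'))
      rw [hgk k', Pi.single_apply] at h1
      have h2 : m (a k').1 = ∑ i : {S : Finset (Fin n) // S.card = j},
          g (Pi.single i 1) k * incM n j i (a k') := by
        show ∑ S ∈ univ.powersetCard j, c' S * (if S ⊆ (a k').1 then (1 : ℝ) else 0) = _
        rw [Finset.sum_subtype (p := fun S : Finset (Fin n) => S.card = j) _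
          (fun S => by simp [mem_powersetCard])]
        refine Finset.sum_congr rfl (fun S _ => ?_)
        show (if h : S.1.card = j then g (Pi.single ⟨S.1, h⟩ 1) k else 0) * _ = _
        rw [dif_pos S.2]
        rfl
      rw [h2, ← h1]
      simp [eq_comm]
    refine ⟨fun T => - m T, c', ?_⟩
    intro V _ _ Y
    have h3 : ∑ S ∈ univ.powersetCard j, c' S • ∑ i ∈ univ.filter (fun i => i ∉ S),
            Y (insert i S) = ∑ T ∈ univ.powersetCard (j + 1), m T • Y T := by
      have : ∀ S ∈ (univ : Finset (Fin n)).powersetCard j,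
          c' S • ∑ i ∈ univ.filter (fun i => i ∉ S), Y (insert i S)
          = ∑ T ∈ univ.powersetCard (j + 1), (c' S * (if S ⊆ T then (1 : ℝ) else 0)) • Y T := by
        intro S hS
        rw [dnV Y j S (mem_powersetCard.mp hS).2, Finset.smul_sum]
        refine Finset.sum_congr rfl (fun T _ => ?_)
        rw [smul_smul]
      rw [Finset.sum_congr rfl this, Finset.sum_comm]
      refine Finset.sum_congr rfl (fun T _ => ?_)
      rw [← Finset.sum_smul]
    rw [h3, ← Finset.sum_filter_add_sum_filter_not (univ.powersetCard (j + 1)) (fun S' => S' ∉ Φ)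
      (fun T => m T • Y T), ← add_assoc, ← Finset.sum_add_distrib]
    have h4 : ∑ x ∈ univ.powersetCard (j + 1) with x ∉ Φ, (-m x • Y x + m x • Y x) = 0 := by
      refine Finset.sum_eq_zero (fun x _ => ?_)
      rw [neg_smul, neg_add_cancel]
    rw [h4, zero_add]
    have h5 : (univ.powersetCard (j + 1)).filter (fun T => ¬ (T ∉ Φ)) = Φ := by
      ext T
      simp only [mem_filter, mem_powersetCard, subset_univ, true_and, not_not]
      constructor
      · exact fun h => h.2
      · intro h
        refine ⟨?_, h⟩
        obtain ⟨k', -, rfl⟩ := Finset.mem_image.mp h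
        exact (a k').2
    rw [h5, Finset.sum_image (fun x _ y _ h => hinj h)]
    simp only [hm, ite_smul, one_smul, zero_smul]
    rw [Finset.sum_ite_eq' univ k (fun k' => Y (a k').1)]
    simp [← hk]
  refine ⟨Φ, ?_, ?_, ?_⟩
  · intro S hS
    obtain ⟨k, -, rfl⟩ := Finset.mem_image.mp hS
    exact (a k).2
  · rw [← hcard, Finset.card_image_of_injective _ hinj, Finset.card_univ]
  · choose! c c' h using key
    exact ⟨c, c', fun V _ _ Y φ hφ => h φ hφ V Y⟩

end Pool.Agent.H21.STE
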